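import Pool.Agent.Helper44.T4.Limit

/-! Final step of T4': from the sets for all horizons to one set. -/

set_option autoImplicit false

namespace Pool.Agent.Helper44.T4

open Finset

theorem rep_set_finite (A : Set ℕ) (n : ℕ) :
    ({q : ℕ × ℕ | q.1 ∈ A ∧ q.2 ∈ A ∧ q.1 + q.2 = n} : Set (ℕ × ℕ)).Finite := by
  apply (Finset.HasAntidiagonal.antidiagonal n).finite_toSet.subset
  rintro q ⟨_, _, h⟩
  simpa using h

theorem rep_le_succ (A : Set ℕ) (n : ℕ) : rep A n ≤ n + 1 := by
  unfold rep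
  have h : ({q : ℕ × ℕ | q.1 ∈ A ∧ q.2 ∈ A ∧ q.1 + q.2 = n} : Set (ℕ × ℕ)) ⊆
      ((Finset.HasAntidiagonal.antidiagonal n : Finset (ℕ × ℕ)) : Set (ℕ × ℕ)) := by
    rintro q ⟨_, _, h⟩
    simpa using h
  refine (Set.ncard_le_ncard h (Finset.HasAntidiagonal.antidiagonal n).finite_toSet).trans ?_
  rw [Set.ncard_coe_finset, Finset.Nat.card_antidiagonal]

theorem rep_insert_le (A : Set ℕ) (a n : ℕ) : rep (insert a A) n ≤ rep A n + 2 := by
  unfold rep
  have h : ({q : ℕ × ℕ | q.1 ∈ insert a A ∧ q.2 ∈ insert a A ∧ q.1 + q.2 = n} : Set (ℕ × ℕ)) ⊆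
      ({q : ℕ × ℕ | q.1 ∈ A ∧ q.2 ∈ A ∧ q.1 + q.2 = n} : Set (ℕ × ℕ)) ∪
        (({(a, n - a), (n - a, a)} : Finset (ℕ × ℕ)) : Set (ℕ × ℕ)) := by
    rintro ⟨u, v⟩ ⟨h1, h2, h3⟩
    simp only [Set.mem_insert_iff] at h1 h2
    simp only at h3
    simp only [Set.mem_union, Set.mem_ofPred_eq, Finset.coe_insert, Finset.coe_singleton,
      Set.mem_insert_iff, Set.mem_singleton_iff, Prod.mk.injEq]
    rcases h1 with h1 | h1
    · right
      left
      exact ⟨h1, by omega⟩
    · rcases h2 with h2 | h2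
      · right
        right
        exact ⟨by omega, h2⟩
      · left
        exact ⟨h1, h2, h3⟩
  refine (Set.ncard_le_ncard h ((rep_set_finite A n).union (Finset.finite_toSet _))).trans ?_
  refine (Set.ncard_union_le _ _).trans ?_
  rw [Set.ncard_coe_finset]
  have := Finset.card_le_two (a := (a, n - a)) (b := (n - a, a))
  omega

theorem sqrt_log_ge (n : ℕ) (hn : 2 ≤ n) : 1 / 2 ≤ Real.sqrt (Real.log n) := by
  apply Real.le_sqrt_of_sq_le
  have h1 : Real.log 2 ≤ Real.log n := by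
    apply Real.log_le_log (by norm_num)
    exact_mod_cast hn
  have h2 := Real.log_two_gt_d9
  norm_num
  linarith

/-- From finite horizons to one set (the element `1` is added). -/
theorem final_of_horizon (H : ℕ → ℕ) (hH : ∀ M : ℕ, ∃ S : ℕ, M < H S) (C : ℝ) (hC : 0 < C)
    (h : ∀ S : ℕ, ∃ A : Set ℕ,
      (∀ n : ℕ, 2 ≤ n → (rep A n : ℝ) ≤ C * Real.sqrt (Real.log n)) ∧
      ∀ x : ℕ, 2 ≤ x → x < H S →
        Real.sqrt x / (C * (Real.log x) ^ 3) ≤ (((insert 1 A) ∩ Set.Iio x).ncard : ℝ)) :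
    ∃ (A : Set ℕ) (C : ℝ), 0 < C ∧
      (∀ n : ℕ, 2 ≤ n →
        (({q : ℕ × ℕ | q.1 ∈ A ∧ q.2 ∈ A ∧ q.1 + q.2 = n}.ncard : ℕ) : ℝ) ≤
          C * Real.sqrt (Real.log n)) ∧
      ∀ x : ℕ, 2 ≤ x → Real.sqrt x / (C * (Real.log x) ^ 3) ≤ ((A ∩ Set.Iio x).ncard : ℝ) := by
  obtain ⟨A, h1, h2⟩ := limit_rep_count
    (fun n => if 2 ≤ n then (C + 4) * Real.sqrt (Real.log n) else 2)
    (fun x => if 2 ≤ x then Real.sqrt x / ((C + 4) * (Real.log x) ^ 3) else 0)
    (by
      intro M
      obtain ⟨S, hS⟩ := hH M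
      obtain ⟨A, hA1, hA2⟩ := h S
      refine ⟨insert 1 A, ?_, ?_⟩
      · intro n _
        by_cases hn : 2 ≤ n
        · simp only [if_pos hn]
          have e1 : ((rep (insert 1 A) n : ℕ) : ℝ) ≤ (rep A n : ℝ) + 2 := by
            exact_mod_cast rep_insert_le A 1 n
          have e2 := hA1 n hn
          have e3 := sqrt_log_ge n hn
          nlinarith
        · simp only [if_neg hn]
          have e1 := rep_le_succ (insert 1 A) n
          have e2 : rep (insert 1 A) n ≤ 2 := by omega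
          exact_mod_cast e2
      · intro x hx
        by_cases hx2 : 2 ≤ x
        · simp only [if_pos hx2]
          refine le_trans ?_ (hA2 x hx2 (by omega))
          have hlog : 0 < Real.log x := Real.log_pos (by exact_mod_cast hx2)
          apply div_le_div_of_nonneg_left (Real.sqrt_nonneg _) (by positivity)
          apply mul_le_mul_of_nonneg_right (by linarith) (by positivity)
        · simp only [if_neg hx2]
          positivity)
  refine ⟨A, C + 4, by linarith, ?_, ?_⟩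
  · intro n hn
    have := h1 n
    simp only [if_pos hn] at this
    exact this
  · intro x hx
    have := h2 x
    simp only [if_pos hx] at this
    exact this

end Pool.Agent.Helper44.T4
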