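import Mathlib

/-! Limit lemma for local properties of sets of natural numbers (ultrafilter limit), with the
instance used in the project T4': representation function and counting function. -/

set_option autoImplicit false

namespace Pool.Agent.Helper44.T4

open Filter

/-- Local properties `P i` (depending only on `A ∩ [0, w i]`) which can be satisfied
simultaneously for all `i` with `w i ≤ M`, for each `M`, can be satisfied simultaneously. -/
theorem limit_sets {ι : Type*} (w : ι → ℕ) (P : ι → Set ℕ → Prop)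
    (hloc : ∀ (i : ι) (A B : Set ℕ), (∀ m ≤ w i, (m ∈ A ↔ m ∈ B)) → P i A → P i B)
    (hfin : ∀ M : ℕ, ∃ A : Set ℕ, ∀ i : ι, w i ≤ M → P i A) :
    ∃ A : Set ℕ, ∀ i : ι, P i A := by
  choose F hF using hfin
  let U : Ultrafilter ℕ := Filter.hyperfilter ℕ
  refine ⟨{a | ∀ᶠ M in (U : Filter ℕ), a ∈ F M}, ?_⟩
  intro i
  have h1 : ∀ m : ℕ, ∀ᶠ M in (U : Filter ℕ),
      (m ∈ F M ↔ m ∈ {a | ∀ᶠ M in (U : Filter ℕ), a ∈ F M}) := by
    intro m
    by_cases hm : ∀ᶠ M in (U : Filter ℕ), m ∈ F M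
    · filter_upwards [hm] with M hM
      exact ⟨fun _ => hm, fun _ => hM⟩
    · have hm' : ∀ᶠ M in (U : Filter ℕ), ¬ m ∈ F M := Ultrafilter.eventually_not.mpr hm
      filter_upwards [hm'] with M hM
      exact ⟨fun h => absurd h hM, fun h => absurd h hm⟩
  have h2 : ∀ᶠ M in (U : Filter ℕ), ∀ m ∈ Finset.range (w i + 1),
      (m ∈ F M ↔ m ∈ {a | ∀ᶠ M in (U : Filter ℕ), a ∈ F M}) := by
    rw [Filter.eventually_all_finset]
    intro m _
    exact h1 m
  have h3 : ∀ᶠ M in (U : Filter ℕ), w i ≤ M := by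
    have : (U : Filter ℕ) ≤ atTop := by
      have := Filter.hyperfilter_le_cofinite (α := ℕ)
      rw [Nat.cofinite_eq_atTop] at this
      exact this
    exact this (eventually_ge_atTop (w i))
  obtain ⟨M, hM2, hM3⟩ := (h2.and h3).exists
  refine hloc i (F M) _ ?_ (hF M i hM3)
  intro m hm
  exact hM2 m (Finset.mem_range.mpr (Nat.lt_succ_of_le hm))

/-- Number of ordered representations. -/
noncomputable def rep (A : Set ℕ) (n : ℕ) : ℕ :=
  ({q : ℕ × ℕ | q.1 ∈ A ∧ q.2 ∈ A ∧ q.1 + q.2 = n} : Set (ℕ × ℕ)).ncard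

theorem rep_congr (A B : Set ℕ) (n : ℕ) (h : ∀ m ≤ n, (m ∈ A ↔ m ∈ B)) :
    rep A n = rep B n := by
  unfold rep
  congr 1
  ext q
  simp only [Set.mem_setOf_eq]
  constructor
  · rintro ⟨h1, h2, h3⟩
    exact ⟨(h _ (by omega)).mp h1, (h _ (by omega)).mp h2, h3⟩
  · rintro ⟨h1, h2, h3⟩
    exact ⟨(h _ (by omega)).mpr h1, (h _ (by omega)).mpr h2, h3⟩

theorem inter_Iio_congr (A B : Set ℕ) (x : ℕ) (h : ∀ m ≤ x, (m ∈ A ↔ m ∈ B)) :
    A ∩ Set.Iio x = B ∩ Set.Iio x := by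
  ext m
  simp only [Set.mem_inter_iff, Set.mem_Iio]
  constructor
  · rintro ⟨h1, h2⟩
    exact ⟨(h _ h2.le).mp h1, h2⟩
  · rintro ⟨h1, h2⟩
    exact ⟨(h _ h2.le).mpr h1, h2⟩

/-- Limit lemma for a bound on the number of representations and a lower bound for the
counting function. -/
theorem limit_rep_count (R f : ℕ → ℝ)
    (h : ∀ M : ℕ, ∃ A : Set ℕ, (∀ n ≤ M, (rep A n : ℝ) ≤ R n) ∧
      ∀ x ≤ M, f x ≤ ((A ∩ Set.Iio x).ncard : ℝ)) :
    ∃ A : Set ℕ, (∀ n : ℕ, (rep A n : ℝ) ≤ R n) ∧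
      ∀ x : ℕ, f x ≤ ((A ∩ Set.Iio x).ncard : ℝ) := by
  obtain ⟨A, hA⟩ := limit_sets (fun n : ℕ => n)
    (fun n A => (rep A n : ℝ) ≤ R n ∧ f n ≤ ((A ∩ Set.Iio n).ncard : ℝ))
    (by
      intro n A B hAB hP
      have e1 := rep_congr A B n hAB
      have e2 := inter_Iio_congr A B n hAB
      refine ⟨?_, ?_⟩
      · rw [← e1]
        exact hP.1
      · rw [← e2]
        exact hP.2)
    (by
      intro M
      obtain ⟨A, h1, h2⟩ := h M
      exact ⟨A, fun n hn => ⟨h1 n hn, h2 n hn⟩⟩)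
  exact ⟨A, fun n => (hA n).1, fun x => (hA x).2⟩

end Pool.Agent.Helper44.T4
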