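import Mathlib

/-! Schedule of the project T4' and translation of a bound by the index of the state into a bound
by `√(log n / log (log n))`. -/

set_option autoImplicit false

namespace Pool.Agent.Helper44.T4

open Real

theorem div_log_mono {a b : ℝ} (ha : Real.exp 1 ≤ a) (hab : a ≤ b) :
    a / Real.log a ≤ b / Real.log b := by
  have h := Real.log_div_self_antitoneOn (Set.mem_setOf_eq ▸ ha : a ∈ {x | Real.exp 1 ≤ x})
    (Set.mem_setOf_eq ▸ (ha.trans hab) : b ∈ {x | Real.exp 1 ≤ x}) hab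
  have ha0 : 0 < a := lt_of_lt_of_le (Real.exp_pos 1) ha
  have hb0 : 0 < b := lt_of_lt_of_le ha0 hab
  have hla : 1 ≤ Real.log a := by
    have := Real.log_le_log (Real.exp_pos 1) ha
    rwa [Real.log_exp] at this
  have hlb : 1 ≤ Real.log b := by
    have := Real.log_le_log (Real.exp_pos 1) (ha.trans hab)
    rwa [Real.log_exp] at this
  have h' : Real.log b / b ≤ Real.log a / a := h
  rw [div_le_div_iff₀ hb0 ha0] at h'
  rw [div_le_div_iff₀ (by linarith) (by linarith)]
  linarith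

theorem one_le_div_log {b : ℝ} (hb : Real.exp 1 ≤ b) : 1 ≤ b / Real.log b := by
  have h := div_log_mono (le_refl (Real.exp 1)) hb
  rw [Real.log_exp, div_one] at h
  have : (1 : ℝ) ≤ Real.exp 1 := by
    have := Real.add_one_le_exp (1 : ℝ)
    linarith
  linarith

theorem exp_one_le_log_nat {n : ℕ} (hn : 16 ≤ n) : Real.exp 1 ≤ Real.log n := by
  have h1 : Real.exp 1 < 2.7182818286 := Real.exp_one_lt_d9
  have h2 : (0.6931471803 : ℝ) < Real.log 2 := Real.log_two_gt_d9
  have h3 : Real.log 16 = 4 * Real.log 2 := by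
    rw [show (16 : ℝ) = 2 ^ 4 by norm_num, Real.log_pow]
    norm_num
  have h4 : Real.log 16 ≤ Real.log n := by
    apply Real.log_le_log (by norm_num)
    exact_mod_cast hn
  linarith

/-- If `c s² log s ≤ log n` then `s ≤ C √(log n / log log n)`. -/
theorem translate (c : ℝ) (hc : 0 < c) : ∃ C : ℝ, 0 < C ∧ ∀ s n : ℕ, 16 ≤ n →
    c * (s : ℝ) ^ 2 * Real.log s ≤ Real.log n →
    (s : ℝ) ≤ C * √(Real.log n / Real.log (Real.log n)) := by
  -- large `s`
  have hlog : Filter.Tendsto (fun s : ℕ => Real.log s) Filter.atTop Filter.atTop :=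
    Real.tendsto_log_atTop.comp tendsto_natCast_atTop_atTop
  have hnat : Filter.Tendsto (fun s : ℕ => (s : ℝ)) Filter.atTop Filter.atTop :=
    tendsto_natCast_atTop_atTop
  have e1 : ∀ᶠ s : ℕ in Filter.atTop, Real.exp 1 / c ≤ Real.log s :=
    hlog.eventually_ge_atTop _
  have e2 : ∀ᶠ s : ℕ in Filter.atTop, max c 2 ≤ (s : ℝ) := hnat.eventually_ge_atTop _
  obtain ⟨s0, hs0⟩ := Filter.eventually_atTop.mp (e1.and e2)
  refine ⟨(s0 : ℝ) + 1 + √(4 / c), by positivity, ?_⟩
  intro s n hn hsn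
  have ht : Real.exp 1 ≤ Real.log n := exp_one_le_log_nat hn
  have ht1 : 1 ≤ Real.log n / Real.log (Real.log n) := one_le_div_log ht
  have hsq1 : 1 ≤ √(Real.log n / Real.log (Real.log n)) := by
    rw [show (1 : ℝ) = √1 by simp]
    exact Real.sqrt_le_sqrt ht1
  have hsq0 : 0 ≤ √(4 / c) := Real.sqrt_nonneg _
  rcases le_or_gt s s0 with hcase | hcase
  · have h1 : (s : ℝ) ≤ s0 := by exact_mod_cast hcase
    have h2 : ((s0 : ℝ) + 1 + √(4 / c)) * 1 ≤
        ((s0 : ℝ) + 1 + √(4 / c)) * √(Real.log n / Real.log (Real.log n)) :=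
      mul_le_mul_of_nonneg_left hsq1 (by positivity)
    linarith
  · obtain ⟨h1, h2⟩ := hs0 s hcase.le
    have hsc : c ≤ (s : ℝ) := le_trans (le_max_left _ _) h2
    have hs2 : (2 : ℝ) ≤ s := le_trans (le_max_right _ _) h2
    have hspos : (0 : ℝ) < s := by linarith
    have hls : 0 < Real.log s := by
      have : 0 < Real.exp 1 / c := div_pos (Real.exp_pos 1) hc
      linarith
    set t0 : ℝ := c * (s : ℝ) ^ 2 * Real.log s with ht0
    have ht0e : Real.exp 1 ≤ t0 := by
      have h3 : Real.exp 1 ≤ c * Real.log s := by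
        rw [div_le_iff₀ hc] at h1
        linarith
      have h4 : c * Real.log s * 1 ≤ c * Real.log s * (s : ℝ) ^ 2 := by
        apply mul_le_mul_of_nonneg_left _ (by positivity)
        nlinarith
      rw [ht0]
      nlinarith
    have ht0pos : 0 < t0 := lt_of_lt_of_le (Real.exp_pos 1) ht0e
    have hlt0 : Real.log t0 ≤ 4 * Real.log s := by
      have h5 : t0 ≤ (s : ℝ) ^ 4 := by
        have h6 : Real.log s ≤ s := by
          have := Real.log_le_sub_one_of_pos hspos
          linarith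
        have h7 : c * (s : ℝ) ^ 2 * Real.log s ≤ s * (s : ℝ) ^ 2 * s := by
          apply mul_le_mul _ h6 hls.le (by positivity)
          exact mul_le_mul_of_nonneg_right hsc (by positivity)
        calc t0 ≤ s * (s : ℝ) ^ 2 * s := h7
          _ = (s : ℝ) ^ 4 := by ring
      calc Real.log t0 ≤ Real.log ((s : ℝ) ^ 4) := Real.log_le_log ht0pos h5
        _ = 4 * Real.log s := by rw [Real.log_pow]; norm_num
    have hlt0pos : 0 < Real.log t0 := by
      have := Real.log_le_log (Real.exp_pos 1) ht0e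
      rw [Real.log_exp] at this
      linarith
    have hmono : t0 / Real.log t0 ≤ Real.log n / Real.log (Real.log n) :=
      div_log_mono ht0e hsn
    have hs_sq : (s : ℝ) ^ 2 ≤ (4 / c) * (t0 / Real.log t0) := by
      rw [div_mul_div_comm, le_div_iff₀ (by positivity)]
      have : (s : ℝ) ^ 2 * (c * Real.log t0) ≤ (s : ℝ) ^ 2 * (c * (4 * Real.log s)) := by
        apply mul_le_mul_of_nonneg_left _ (by positivity)
        exact mul_le_mul_of_nonneg_left hlt0 hc.le
      rw [ht0]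
      rw [ht0] at this
      nlinarith
    have hs_sq2 : (s : ℝ) ^ 2 ≤ (4 / c) * (Real.log n / Real.log (Real.log n)) :=
      hs_sq.trans (mul_le_mul_of_nonneg_left hmono (by positivity))
    have hs3 : (s : ℝ) ≤ √(4 / c) * √(Real.log n / Real.log (Real.log n)) := by
      rw [← Real.sqrt_mul (by positivity)]
      exact Real.le_sqrt_of_sq_le hs_sq2
    have h9 : 0 ≤ ((s0 : ℝ) + 1) * √(Real.log n / Real.log (Real.log n)) := by positivity
    nlinarith

/-- Step function of the schedule: `gs (s + 1) = gs s + log₂ (s + 1)`. -/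
def gs : ℕ → ℕ
  | 0 => 0
  | (s + 1) => gs s + Nat.log 2 (s + 1)

/-- Cut positions: `ks (s + 1) = ks s + 2 gs s`. -/
def ks : ℕ → ℕ
  | 0 => 0
  | (s + 1) => ks s + 2 * gs s

theorem gs_zero : gs 0 = 0 := rfl
theorem gs_succ (s : ℕ) : gs (s + 1) = gs s + Nat.log 2 (s + 1) := rfl
theorem ks_zero : ks 0 = 0 := rfl
theorem ks_succ (s : ℕ) : ks (s + 1) = ks s + 2 * gs s := rfl

theorem gs_mono : Monotone gs := monotone_nat_of_le_succ (fun s => by rw [gs_succ]; omega)
theorem ks_mono : Monotone ks := monotone_nat_of_le_succ (fun s => by rw [ks_succ]; omega)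

theorem gs_le (s : ℕ) : gs s ≤ s * Nat.log 2 s := by
  induction s with
  | zero => simp [gs_zero]
  | succ s ih =>
    rw [gs_succ]
    have h : Nat.log 2 s ≤ Nat.log 2 (s + 1) := Nat.log_mono_right (Nat.le_succ s)
    calc gs s + Nat.log 2 (s + 1) ≤ s * Nat.log 2 s + Nat.log 2 (s + 1) := by omega
      _ ≤ s * Nat.log 2 (s + 1) + Nat.log 2 (s + 1) := by
        have := Nat.mul_le_mul_left s h
        omega
      _ = (s + 1) * Nat.log 2 (s + 1) := by ring

/-- `gs s ≥ (s - m) log₂ m` for `m ≤ s`. -/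
theorem le_gs (m s : ℕ) (h : m ≤ s) : (s - m) * Nat.log 2 m ≤ gs s := by
  induction s, h using Nat.le_induction with
  | base => simp
  | succ s hs ih =>
    rw [gs_succ]
    have h1 : Nat.log 2 m ≤ Nat.log 2 (s + 1) := Nat.log_mono_right (by omega)
    have h2 : s + 1 - m = (s - m) + 1 := by omega
    rw [h2, Nat.add_mul, one_mul]
    omega

/-- `ks s ≥ 2 (s - m) gs m` for `m ≤ s`. -/
theorem le_ks (m s : ℕ) (h : m ≤ s) : 2 * (s - m) * gs m ≤ ks s := by
  induction s, h using Nat.le_induction with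
  | base => simp
  | succ s hs ih =>
    rw [ks_succ]
    have h1 : gs m ≤ gs s := gs_mono hs
    have h2 : 2 * (s + 1 - m) * gs m = 2 * (s - m) * gs m + 2 * gs m := by
      have : s + 1 - m = (s - m) + 1 := by omega
      rw [this]
      ring
    omega

theorem ks_le (s : ℕ) : ks s ≤ 2 * (s * gs s) := by
  induction s with
  | zero => simp [ks_zero]
  | succ s ih =>
    rw [ks_succ]
    have h1 : gs s ≤ gs (s + 1) := gs_mono (Nat.le_succ s)
    have h2 : s * gs s ≤ s * gs (s + 1) := Nat.mul_le_mul_left s h1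
    calc ks s + 2 * gs s ≤ 2 * (s * gs s) + 2 * gs s := by omega
      _ ≤ 2 * (s * gs (s + 1)) + 2 * gs (s + 1) := by omega
      _ = 2 * ((s + 1) * gs (s + 1)) := by ring

/-- `s² log₂ s ≤ 32 ks s + 32 s²` (all `s`). -/
theorem sq_log_le_ks (s : ℕ) (hs : 16 ≤ s) : s ^ 2 * Nat.log 2 s ≤ 64 * ks s := by
  -- m = s / 2, q = m / 2
  have h1 := le_ks (s / 2) s (Nat.div_le_self s 2)
  have h2 := le_gs (s / 2 / 2) (s / 2) (Nat.div_le_self _ 2)
  have hlog1 : Nat.log 2 (s / 2 / 2) = Nat.log 2 s - 2 := by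
    rw [Nat.log_div_base, Nat.log_div_base]
    omega
  have hL : 4 ≤ Nat.log 2 s := by
    have : Nat.log 2 16 ≤ Nat.log 2 s := Nat.log_mono_right hs
    have h16 : Nat.log 2 16 = 4 := by
      rw [show (16 : ℕ) = 2 ^ 4 by norm_num]
      exact Nat.log_pow (by norm_num) 4
    omega
  set L := Nat.log 2 s with hLdef
  rw [hlog1] at h2
  have h3 : L ≤ 2 * (L - 2) := by omega
  have h4 : s ≤ 4 * (s / 2 - s / 2 / 2) + 3 := by omega
  have h4' : s ≤ 5 * (s / 2 - s / 2 / 2) := by omega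
  have h5 : s ≤ 2 * (s - s / 2) := by omega
  -- gs (s/2) ≥ (s/5) * (L/2)
  have h6 : s * L ≤ 10 * gs (s / 2) := by
    calc s * L ≤ (5 * (s / 2 - s / 2 / 2)) * (2 * (L - 2)) := Nat.mul_le_mul h4' h3
      _ = 10 * ((s / 2 - s / 2 / 2) * (L - 2)) := by ring
      _ ≤ 10 * gs (s / 2) := Nat.mul_le_mul_left _ h2
  calc s ^ 2 * L = s * (s * L) := by ring
    _ ≤ (2 * (s - s / 2)) * (10 * gs (s / 2)) := Nat.mul_le_mul h5 h6
    _ = 10 * (2 * (s - s / 2) * gs (s / 2)) := by ring
    _ ≤ 10 * ks s := Nat.mul_le_mul_left _ h1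
    _ ≤ 64 * ks s := by omega

/-- In real numbers: `s² log s ≤ 64 ks s` for `s ≥ 16`. -/
theorem sq_log_le_ks_real (s : ℕ) (hs : 16 ≤ s) :
    (s : ℝ) ^ 2 * Real.log s ≤ 64 * (ks s : ℝ) := by
  have h1 := sq_log_le_ks s hs
  have hL : 4 ≤ Nat.log 2 s := by
    have : Nat.log 2 16 ≤ Nat.log 2 s := Nat.log_mono_right hs
    have h16 : Nat.log 2 16 = 4 := by
      rw [show (16 : ℕ) = 2 ^ 4 by norm_num]
      exact Nat.log_pow (by norm_num) 4
    omega
  have h2 : Real.log s ≤ Nat.log 2 s := by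
    have h3 : s < 2 ^ (Nat.log 2 s + 1) := Nat.lt_pow_succ_log_self (by norm_num) s
    have h4 : (s : ℝ) ≤ 2 ^ (Nat.log 2 s + 1) := by exact_mod_cast h3.le
    have h5 : Real.log s ≤ (Nat.log 2 s + 1 : ℕ) * Real.log 2 := by
      rw [← Real.log_pow]
      apply Real.log_le_log _ h4
      have : 0 < s := by omega
      exact_mod_cast this
    have h6 : Real.log 2 < 0.6931471808 := Real.log_two_lt_d9
    have h7 : (4 : ℝ) ≤ (Nat.log 2 s : ℝ) := by exact_mod_cast hL
    push_cast at h5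
    nlinarith
  have h3 : ((s ^ 2 * Nat.log 2 s : ℕ) : ℝ) ≤ ((64 * ks s : ℕ) : ℝ) := by exact_mod_cast h1
  push_cast at h3
  have h4 : (s : ℝ) ^ 2 * Real.log s ≤ (s : ℝ) ^ 2 * (Nat.log 2 s : ℝ) :=
    mul_le_mul_of_nonneg_left h2 (by positivity)
  linarith

/-- The translation used at the end: if `2 ^ ks s ≤ n` then `s ≤ C √(log n / log log n)`. -/
theorem index_le : ∃ C : ℝ, 0 < C ∧ ∀ s n : ℕ, 16 ≤ n → 2 ^ ks s ≤ n →
    (s : ℝ) ≤ C * √(Real.log n / Real.log (Real.log n)) := by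
  obtain ⟨C, hC, h⟩ := translate (1 / 128) (by norm_num)
  refine ⟨C + 16, by linarith, ?_⟩
  intro s n hn hsn
  have hsq1 : 1 ≤ √(Real.log n / Real.log (Real.log n)) := by
    rw [show (1 : ℝ) = √1 by simp]
    exact Real.sqrt_le_sqrt (one_le_div_log (exp_one_le_log_nat hn))
  rcases lt_or_ge s 16 with hcase | hcase
  · have h1 : (s : ℝ) ≤ 16 := by exact_mod_cast hcase.le
    nlinarith
  · have h1 := sq_log_le_ks_real s hcase
    have h2 : (ks s : ℝ) * Real.log 2 ≤ Real.log n := by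
      rw [← Real.log_pow]
      apply Real.log_le_log (by positivity)
      exact_mod_cast hsn
    have h3 : (0.6931471803 : ℝ) < Real.log 2 := Real.log_two_gt_d9
    have h4 : (0 : ℝ) ≤ ks s := Nat.cast_nonneg _
    have h5 := h s n hn (by nlinarith)
    nlinarith

end Pool.Agent.Helper44.T4
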