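import Mathlib

/-! Windows with one element in each block. For `v ≥ 1` the block of `v` is the aligned interval
of length `2 ^ (log₄ v)` containing `v`. A window contains one element of each block; this gives a
deterministic lower bound for the counting function. -/

set_option autoImplicit false

namespace Pool.Agent.Helper44.T4

/-- level of `v` -/
def lev (v : ℕ) : ℕ := Nat.log 4 v

/-- length of the block of `v` -/
def len (v : ℕ) : ℕ := 2 ^ lev v

/-- first element of the block of `v` -/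
def base (v : ℕ) : ℕ := v - v % len v

theorem len_pos (v : ℕ) : 0 < len v := Nat.pow_pos (by norm_num)

theorem len_sq (v : ℕ) : len v ^ 2 = 4 ^ lev v := by
  unfold len
  rw [← pow_mul, mul_comm, pow_mul]
  norm_num

theorem pow_lev_le {v : ℕ} (hv : 1 ≤ v) : 4 ^ lev v ≤ v :=
  Nat.pow_log_le_self 4 (by omega)

theorem lt_pow_lev (v : ℕ) : v < 4 ^ (lev v + 1) :=
  Nat.lt_pow_succ_log_self (by norm_num) v

theorem len_sq_le {v : ℕ} (hv : 1 ≤ v) : len v ^ 2 ≤ v := by
  rw [len_sq]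
  exact pow_lev_le hv

theorem lt_len_sq (v : ℕ) : v < 4 * len v ^ 2 := by
  rw [len_sq]
  have := lt_pow_lev v
  rw [pow_succ] at this
  omega

theorem len_le {v : ℕ} (hv : 1 ≤ v) : len v ≤ v := by
  have h1 := len_sq_le hv
  have h2 := len_pos v
  nlinarith

theorem lev_eq {v i : ℕ} (h1 : 4 ^ i ≤ v) (h2 : v < 4 ^ (i + 1)) : lev v = i :=
  Nat.log_eq_of_pow_le_of_lt_pow h1 h2

theorem lev_pos_of_four_le {v : ℕ} (hv : 4 ≤ v) : 1 ≤ lev v := by
  have : Nat.log 4 4 ≤ Nat.log 4 v := Nat.log_mono_right hv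
  have h4 : Nat.log 4 4 = 1 := by
    rw [show (4 : ℕ) = 4 ^ 1 by norm_num]
    exact Nat.log_pow (by norm_num) 1
  unfold lev
  omega

theorem base_le (v : ℕ) : base v ≤ v := Nat.sub_le _ _

theorem base_add_mod (v : ℕ) : base v + v % len v = v := by
  unfold base
  have := Nat.mod_le v (len v)
  omega

theorem lt_base_add (v : ℕ) : v < base v + len v := by
  have h1 := base_add_mod v
  have h2 := Nat.mod_lt v (len_pos v)
  omega

theorem len_dvd_base (v : ℕ) : len v ∣ base v := Nat.dvd_sub_mod v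

theorem len_dvd_pow (v : ℕ) : len v ∣ 4 ^ lev v := by
  rw [← len_sq]
  exact dvd_pow_self _ (by norm_num)

theorem pow_le_base {v : ℕ} (hv : 1 ≤ v) : 4 ^ lev v ≤ base v := by
  -- the largest multiple of `len v` which is at most `v`
  obtain ⟨q, hq⟩ := len_dvd_pow v
  have h1 : 4 ^ lev v ≤ v := pow_lev_le hv
  have h2 : base v = len v * (v / len v) := by
    have := Nat.div_add_mod v (len v)
    have h3 := base_add_mod v
    omega
  rw [h2, hq]
  apply Nat.mul_le_mul_left
  rw [Nat.le_div_iff_mul_le (len_pos v), mul_comm, ← hq]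
  exact h1

theorem lev_base {v : ℕ} (hv : 1 ≤ v) : lev (base v) = lev v :=
  lev_eq (pow_le_base hv) (lt_of_le_of_lt (base_le v) (lt_pow_lev v))

theorem len_base {v : ℕ} (hv : 1 ≤ v) : len (base v) = len v := by
  unfold len
  rw [lev_base hv]

theorem one_le_base {v : ℕ} (hv : 1 ≤ v) : 1 ≤ base v :=
  le_trans (Nat.one_le_pow _ _ (by norm_num)) (pow_le_base hv)

/-- the block of a base: levels -/
theorem lev_add {b k : ℕ} (hb : 1 ≤ b) (hd : len b ∣ b) (hk : k < len b) :
    lev (b + k) = lev b := by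
  apply lev_eq
  · exact le_trans (pow_lev_le hb) (Nat.le_add_right b k)
  · have h1 := lt_pow_lev b
    have h2 : len b ∣ 4 ^ (lev b + 1) := by
      rw [pow_succ]
      exact Dvd.dvd.mul_right (len_dvd_pow b) 4
    have h3 : b + len b ≤ 4 ^ (lev b + 1) := by
      obtain ⟨q, hq⟩ := hd
      obtain ⟨r, hr⟩ := h2
      rw [hr]
      rw [hr] at h1
      have h4 : q < r := by
        have h5 : len b * q < len b * r := by
          rw [← hq]
          exact h1
        exact Nat.lt_of_mul_lt_mul_left h5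
      calc b + len b = len b * q + len b := by rw [← hq]
        _ = len b * (q + 1) := by ring
        _ ≤ len b * r := Nat.mul_le_mul_left _ h4
    omega

theorem base_add {b k : ℕ} (hb : 1 ≤ b) (hd : len b ∣ b) (hk : k < len b) :
    base (b + k) = b := by
  have h1 : len (b + k) = len b := by
    unfold len
    rw [lev_add hb hd hk]
  unfold base
  rw [h1]
  obtain ⟨q, hq⟩ := hd
  have h2 : (b + k) % len b = k := by
    have h3 : (b + k) % len b = (len b * q + k) % len b := by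
      congr 2
    rw [h3, Nat.mul_add_mod]
    exact Nat.mod_eq_of_lt hk
  omega

/-- the bases of the blocks contained in `[lo, hi)` -/
def bases (lo hi : ℕ) : Finset ℕ :=
  (Finset.Ico lo hi).filter (fun b => 1 ≤ b ∧ len b ∣ b ∧ b + len b ≤ hi)

theorem mem_bases {lo hi b : ℕ} :
    b ∈ bases lo hi ↔ lo ≤ b ∧ 1 ≤ b ∧ len b ∣ b ∧ b + len b ≤ hi := by
  unfold bases
  rw [Finset.mem_filter, Finset.mem_Ico]
  have := len_pos b
  constructor
  · rintro ⟨⟨h1, h2⟩, h3, h4, h5⟩
    exact ⟨h1, h3, h4, h5⟩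
  · rintro ⟨h1, h3, h4, h5⟩
    exact ⟨⟨h1, by omega⟩, h3, h4, h5⟩

/-- the window: one element `b + w b` in the block with base `b` -/
def win (lo hi : ℕ) (w : ℕ → ℕ) : Finset ℕ := (bases lo hi).image (fun b => b + w b)

theorem mem_win {lo hi : ℕ} {w : ℕ → ℕ} (hw : ∀ b ∈ bases lo hi, w b < len b) {v : ℕ} :
    v ∈ win lo hi w ↔ base v ∈ bases lo hi ∧ v = base v + w (base v) := by
  unfold win
  rw [Finset.mem_image]
  constructor
  · rintro ⟨b, hb, rfl⟩
    obtain ⟨_, h1, h2, _⟩ := mem_bases.mp hb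
    have h3 := base_add h1 h2 (hw b hb)
    have h4 : base (b + w b) ∈ bases lo hi := by
      rw [h3]
      exact hb
    refine ⟨h4, ?_⟩
    show b + w b = base (b + w b) + w (base (b + w b))
    rw [h3]
  · rintro ⟨hb, hv⟩
    exact ⟨base v, hb, hv.symm⟩

theorem mem_win_iff_key {lo hi : ℕ} {w : ℕ → ℕ} (hw : ∀ b ∈ bases lo hi, w b < len b) {v : ℕ} :
    v ∈ win lo hi w ↔ base v ∈ bases lo hi ∧ w (base v) = v % len v := by
  rw [mem_win hw]
  have h := base_add_mod v
  constructor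
  · rintro ⟨h1, h2⟩
    exact ⟨h1, by omega⟩
  · rintro ⟨h1, h2⟩
    exact ⟨h1, by omega⟩

theorem le_of_mem_win {lo hi : ℕ} {w : ℕ → ℕ} {v : ℕ} (hv : v ∈ win lo hi w) :
    lo ≤ v ∧ 1 ≤ v := by
  unfold win at hv
  obtain ⟨b, hb, rfl⟩ := Finset.mem_image.mp hv
  obtain ⟨h0, h1, h2, h3⟩ := mem_bases.mp hb
  exact ⟨by omega, by omega⟩

theorem lt_of_mem_win {lo hi : ℕ} {w : ℕ → ℕ} (hw : ∀ b ∈ bases lo hi, w b < len b) {v : ℕ}
    (hv : v ∈ win lo hi w) : v < hi := by
  unfold win at hv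
  obtain ⟨b, hb, rfl⟩ := Finset.mem_image.mp hv
  obtain ⟨h0, h1, h2, h3⟩ := mem_bases.mp hb
  have := hw b hb
  omega

theorem win_injOn {lo hi : ℕ} {w : ℕ → ℕ} (hw : ∀ b ∈ bases lo hi, w b < len b) :
    Set.InjOn (fun b => b + w b) (bases lo hi : Set ℕ) := by
  intro a ha b hb hab
  have ha' : a ∈ bases lo hi := ha
  have hb' : b ∈ bases lo hi := hb
  obtain ⟨_, a1, a2, _⟩ := mem_bases.mp ha'
  obtain ⟨_, b1, b2, _⟩ := mem_bases.mp hb'
  have h1 := base_add a1 a2 (hw a ha')
  have h2 := base_add b1 b2 (hw b hb')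
  have h3 : a + w a = b + w b := hab
  rw [← h1, h3, h2]

/-- Deterministic lower bound: if `16 lo ≤ z ≤ hi` then the window has at least `√(z / 2)`
elements below `z`. -/
theorem card_win_ge {lo hi z : ℕ} {w : ℕ → ℕ} (hw : ∀ b ∈ bases lo hi, w b < len b)
    (hlo : 16 * lo ≤ z) (hz : z ≤ hi) (hz16 : 16 ≤ z) :
    z ≤ 2 * ((win lo hi w).filter (fun v => v < z)).card ^ 2 := by
  -- level `i` with `4 ^ (i + 2) > z ≥ 4 ^ (i + 1)`
  set j := lev z with hj
  have hj1 : 2 ≤ j := by
    have : Nat.log 4 16 ≤ Nat.log 4 z := Nat.log_mono_right hz16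
    have h4 : Nat.log 4 16 = 2 := by
      rw [show (16 : ℕ) = 4 ^ 2 by norm_num]
      exact Nat.log_pow (by norm_num) 2
    have h5 : lev z = Nat.log 4 z := rfl
    omega
  obtain ⟨i, hi'⟩ : ∃ i, j = i + 1 := ⟨j - 1, by omega⟩
  have h1 : 4 ^ (i + 1) ≤ z := by
    rw [← hi']
    exact pow_lev_le (by omega)
  have h2 : z < 4 ^ (i + 2) := by
    have := lt_pow_lev z
    rw [← hj, hi'] at this
    exact this
  have hlo4 : lo ≤ 4 ^ i := by
    have h3 : 16 * lo < 4 ^ (i + 2) := lt_of_le_of_lt hlo h2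
    have h4 : (4 : ℕ) ^ (i + 2) = 16 * 4 ^ i := by ring
    omega
  -- bases `2 ^ i * q`, `2 ^ i ≤ q < 4 * 2 ^ i`
  have hsub : ((Finset.Ico (2 ^ i) (4 * 2 ^ i)).image (fun q => 2 ^ i * q)) ⊆
      (bases lo hi).filter (fun b => b + len b ≤ z) := by
    intro b hb
    obtain ⟨q, hq, rfl⟩ := Finset.mem_image.mp hb
    rw [Finset.mem_Ico] at hq
    have e1 : (2 : ℕ) ^ i * 2 ^ i = 4 ^ i := by
      rw [← mul_pow]
      norm_num
    have hb1 : 4 ^ i ≤ 2 ^ i * q := by
      rw [← e1]
      exact Nat.mul_le_mul_left _ hq.1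
    have hb2 : 2 ^ i * q + 2 ^ i ≤ 4 ^ (i + 1) := by
      calc 2 ^ i * q + 2 ^ i = 2 ^ i * (q + 1) := by ring
        _ ≤ 2 ^ i * (4 * 2 ^ i) := Nat.mul_le_mul_left _ hq.2
        _ = 4 ^ (i + 1) := by rw [pow_succ, ← e1]; ring
    have hp : 0 < 2 ^ i := Nat.pow_pos (by norm_num)
    have hlev : lev (2 ^ i * q) = i := lev_eq hb1 (by omega)
    have hlen : len (2 ^ i * q) = 2 ^ i := by
      unfold len
      rw [hlev]
    have hpos : 1 ≤ 2 ^ i * q := le_trans (Nat.one_le_pow _ _ (by norm_num)) hb1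
    rw [Finset.mem_filter, mem_bases, hlen]
    exact ⟨⟨by omega, hpos, Dvd.intro q rfl, by omega⟩, by omega⟩
  have hcard1 : ((Finset.Ico (2 ^ i) (4 * 2 ^ i)).image (fun q => 2 ^ i * q)).card = 3 * 2 ^ i := by
    rw [Finset.card_image_of_injective, Nat.card_Ico]
    · omega
    · intro a b hab
      have hp : 0 < 2 ^ i := Nat.pow_pos (by norm_num)
      exact Nat.eq_of_mul_eq_mul_left hp hab
  have hcard2 : 3 * 2 ^ i ≤ ((bases lo hi).filter (fun b => b + len b ≤ z)).card := by
    rw [← hcard1]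
    exact Finset.card_le_card hsub
  have hcard3 : ((bases lo hi).filter (fun b => b + len b ≤ z)).card ≤
      ((win lo hi w).filter (fun v => v < z)).card := by
    apply Finset.card_le_card_of_injOn (fun b => b + w b)
    · intro b hb
      have hb' : b ∈ (bases lo hi).filter (fun b => b + len b ≤ z) := hb
      rw [Finset.mem_filter] at hb'
      have h5 := hw b hb'.1
      have : b + w b ∈ (win lo hi w).filter (fun v => v < z) := by
        rw [Finset.mem_filter]
        refine ⟨Finset.mem_image.mpr ⟨b, hb'.1, rfl⟩, ?_⟩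
        have := hb'.2
        omega
      exact this
    · intro a ha b hb hab
      have ha' : a ∈ (bases lo hi).filter (fun b => b + len b ≤ z) := ha
      have hb' : b ∈ (bases lo hi).filter (fun b => b + len b ≤ z) := hb
      exact win_injOn hw (Finset.mem_filter.mp ha').1 (Finset.mem_filter.mp hb').1 hab
  have h6 : 3 * 2 ^ i ≤ ((win lo hi w).filter (fun v => v < z)).card := hcard2.trans hcard3
  have h7 : (3 * 2 ^ i) ^ 2 ≤ ((win lo hi w).filter (fun v => v < z)).card ^ 2 :=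
    Nat.pow_le_pow_left h6 2
  have h8 : (3 * 2 ^ i) ^ 2 = 9 * 4 ^ i := by
    rw [mul_pow, ← pow_mul, mul_comm i 2, pow_mul]
    norm_num
  have h9 : (4 : ℕ) ^ (i + 2) = 16 * 4 ^ i := by ring
  omega

/-- The map `(x, v) ↦ code x + N v` has fibres of size at most `B`, if `code mod N` has. -/
theorem thick {X : Type*} [DecidableEq X] (S : Finset X) (code : X → ℕ) (N Ne B : ℕ)
    (hN : 0 < N) (hcode : ∀ x ∈ S, code x < Ne)
    (hB : ∀ c : ℕ, (S.filter (fun x => code x % N = c)).card ≤ B) (V : Finset ℕ) (y : ℕ) :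
    S.card * (V.filter (fun v => Ne + N * v ≤ y)).card ≤
      B * (((S ×ˢ V).image (fun q => code q.1 + N * q.2)).filter (fun a => a < y)).card := by
  classical
  set V' := V.filter (fun v => Ne + N * v ≤ y) with hV'
  rw [← Finset.card_product]
  have hmaps : ∀ q ∈ S ×ˢ V', code q.1 + N * q.2 ∈
      ((S ×ˢ V).image (fun q => code q.1 + N * q.2)).filter (fun a => a < y) := by
    intro q hq
    rw [Finset.mem_product] at hq
    have h1 := hcode q.1 hq.1
    have h2 := Finset.mem_filter.mp hq.2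
    rw [Finset.mem_filter]
    refine ⟨Finset.mem_image.mpr ⟨q, ?_, rfl⟩, by have := h2.2; omega⟩
    rw [Finset.mem_product]
    exact ⟨hq.1, h2.1⟩
  apply Finset.card_le_mul_card_image_of_maps_to hmaps
  intro a _
  -- the fibre
  have hinj : Set.InjOn (fun q : X × ℕ => q.1)
      (((S ×ˢ V').filter (fun q => code q.1 + N * q.2 = a) : Finset (X × ℕ)) : Set (X × ℕ)) := by
    intro q hq r hr hqr
    have hq' := (Finset.mem_filter.mp hq).2
    have hr' := (Finset.mem_filter.mp hr).2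
    have e : q.1 = r.1 := hqr
    rw [← e] at hr'
    have h3 : N * q.2 = N * r.2 := by omega
    have h4 : q.2 = r.2 := Nat.eq_of_mul_eq_mul_left hN h3
    exact Prod.ext e h4
  rw [← Finset.card_image_of_injOn hinj]
  refine le_trans (Finset.card_le_card ?_) (hB (a % N))
  intro x hx
  obtain ⟨q, hq, rfl⟩ := Finset.mem_image.mp hx
  rw [Finset.mem_filter, Finset.mem_product] at hq
  rw [Finset.mem_filter]
  refine ⟨hq.1.1, ?_⟩
  rw [← hq.2, Nat.add_mul_mod_self_left]

/-- Thickness of one state: with the window `win lo hi w`, for `y` with `2 Ne ≤ y`,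
`64 N (lo + 1) ≤ y ≤ N hi` the number of elements below `y` is at least
`#S √(y / N) / (4 B)`. -/
theorem thick_state {X : Type*} [DecidableEq X] (S : Finset X) (code : X → ℕ) (N Ne B : ℕ)
    (hN : 0 < N) (hcode : ∀ x ∈ S, code x < Ne)
    (hB : ∀ c : ℕ, (S.filter (fun x => code x % N = c)).card ≤ B)
    {lo hi : ℕ} {w : ℕ → ℕ} (hw : ∀ b ∈ bases lo hi, w b < len b) (y : ℕ)
    (hNe : 2 * Ne ≤ y) (hlo : 64 * N * (lo + 1) ≤ y) (hhi : y ≤ N * hi) :
    (S.card : ℝ) * √((y : ℝ) / N) ≤ 4 * B *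
      ((((S ×ˢ win lo hi w).image (fun q => code q.1 + N * q.2)).filter (fun a => a < y)).card : ℝ)
      := by
  classical
  set z := (y - Ne) / N with hz
  have hz1 : N * z + Ne ≤ y := by
    have h1 : N * z ≤ y - Ne := Nat.mul_div_le _ _
    omega
  have hz2 : y - Ne < N * (z + 1) := Nat.lt_mul_div_succ (y - Ne) hN
  have hz3 : z ≤ hi := by
    by_contra hcon
    push Not at hcon
    have h3 : N * hi < N * z := Nat.mul_lt_mul_of_pos_left hcon hN
    omega
  have hz4 : 32 * (lo + 1) ≤ z + 1 := by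
    by_contra hcon
    push Not at hcon
    have h3 : N * (z + 1) < N * (32 * (lo + 1)) := Nat.mul_lt_mul_of_pos_left hcon hN
    have h4 : 64 * N * (lo + 1) = 2 * (N * (32 * (lo + 1))) := by ring
    omega
  have hcount := card_win_ge (lo := lo) (hi := hi) (z := z) hw (by omega) hz3 (by omega)
  have hth := thick S code N Ne B hN hcode hB (win lo hi w) y
  have hsub : ((win lo hi w).filter (fun v => v < z)).card ≤
      ((win lo hi w).filter (fun v => Ne + N * v ≤ y)).card := by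
    apply Finset.card_le_card
    intro v hv
    rw [Finset.mem_filter] at hv ⊢
    refine ⟨hv.1, ?_⟩
    have h5 : N * v ≤ N * z := Nat.mul_le_mul_left _ hv.2.le
    omega
  set A := (((S ×ˢ win lo hi w).image (fun q => code q.1 + N * q.2)).filter
    (fun a => a < y)).card with hA
  set K := ((win lo hi w).filter (fun v => v < z)).card with hK
  -- `y / N ≤ 4 z ≤ 8 K²`
  have h6 : (y : ℝ) / N ≤ 8 * (K : ℝ) ^ 2 := by
    have hNpos : (0 : ℝ) < N := by exact_mod_cast hN
    rw [div_le_iff₀ hNpos]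
    have h7 : y ≤ 4 * z * N := by
      have h8 : y ≤ 2 * (N * (z + 1)) := by omega
      have h9 : z + 1 ≤ 2 * z := by omega
      have h10 : N * (z + 1) ≤ N * (2 * z) := Nat.mul_le_mul_left _ h9
      calc y ≤ 2 * (N * (z + 1)) := h8
        _ ≤ 2 * (N * (2 * z)) := Nat.mul_le_mul_left _ h10
        _ = 4 * z * N := by ring
    have h11 : y ≤ 8 * K ^ 2 * N := by
      calc y ≤ 4 * z * N := h7
        _ ≤ 4 * (2 * K ^ 2) * N := Nat.mul_le_mul_right _ (Nat.mul_le_mul_left _ hcount)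
        _ = 8 * K ^ 2 * N := by ring
    exact_mod_cast h11
  have h12 : √((y : ℝ) / N) ≤ 4 * K := by
    calc √((y : ℝ) / N) ≤ √(8 * (K : ℝ) ^ 2) := Real.sqrt_le_sqrt h6
      _ ≤ √((4 * (K : ℝ)) ^ 2) := Real.sqrt_le_sqrt (by nlinarith [sq_nonneg (K : ℝ)])
      _ = 4 * K := Real.sqrt_sq (by positivity)
  have h13 : S.card * K ≤ B * A := (Nat.mul_le_mul_left _ hsub).trans hth
  have h14 : (S.card : ℝ) * K ≤ B * A := by exact_mod_cast h13
  calc (S.card : ℝ) * √((y : ℝ) / N) ≤ (S.card : ℝ) * (4 * K) :=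
        mul_le_mul_of_nonneg_left h12 (Nat.cast_nonneg _)
    _ = 4 * ((S.card : ℝ) * K) := by ring
    _ ≤ 4 * (B * A) := by linarith
    _ = 4 * B * A := by ring

end Pool.Agent.Helper44.T4
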